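import Pool.Agent.P.MP_451a58_nt.Main

/-- Let `N n` be the number of primes `p < n` such that `π (n - p)` is a perfect square. The sum of
`N n` over `n < x`, divided by the sum of `√n (log n)^a`, tends to `c` if and only if the sum of the
gaps after the primes with index `j^2`, `1 ≤ j ≤ J`, divided by `J (2 log J)^(a + 3/2)`, tends to
`c`. Here `Nat.nth Nat.Prime (k - 1)` is the `k`-th prime. -/
theorem Pool.Agent.Results.MP_451a58_nt.GapEquivalence.result (a c : ℝ) :
    Filter.Tendsto (fun x : ℕ =>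
      (∑ n ∈ Finset.range x, (((Finset.range n).filter fun p =>
        p.Prime ∧ IsSquare (Nat.primeCounting (n - p))).card : ℝ)) /
      ∑ n ∈ Finset.range x, √(n : ℝ) * Real.log n ^ a) Filter.atTop (nhds c) ↔
    Filter.Tendsto (fun J : ℕ =>
      (∑ j ∈ Finset.Icc 1 J,
        ((Nat.nth Nat.Prime (j ^ 2) : ℝ) - Nat.nth Nat.Prime (j ^ 2 - 1))) /
      (J * (2 * Real.log J) ^ (a + 3 / 2))) Filter.atTop (nhds c) :=
  Pool.Agent.P.MP_451a58_nt.main a c
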